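import Pool.Agent.H38.LR.T3997.Q120.NC.Basic
import Pool.Agent.H38.LR.T3997.Q120.AD.Tail
import Pool.Agent.H38.LR.T3997.Q120.PT.Basic

/-!
# Cramér's model: the exact law of the number of gaps which exceed any given function
-/

set_option autoImplicit false

namespace Pool.Agent.Q120.NC

open Finset MeasureTheory Filter Pool.Agent.Q120.ET Pool.Agent.Q120.MF Pool.Agent.Q120.PT Pool.Agent.Q120.AD

variable {Ω : Type*} [MeasurableSpace Ω] {μ : Measure Ω} [IsProbabilityMeasure μ] {A : Ω → Set ℕ}

/-- `n` is an element and the next `h n` integers are not. -/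
def GapEv (A : Ω → Set ℕ) (h : ℕ → ℕ) (n : ℕ) : Set Ω :=
  {ω | 3 ≤ n ∧ n ∈ A ω ∧ ∀ m ∈ A ω, n < m → n + h n < m}

/-- The probability of this event. -/
noncomputable def gapP (h : ℕ → ℕ) (n : ℕ) : ℝ :=
  if 3 ≤ n then 1 / Real.log n * pFree (Ioc n (n + h n)) else 0

theorem gapEv_eq (h : ℕ → ℕ) {n : ℕ} (hn : 3 ≤ n) :
    GapEv A h n = {ω | tr A (Icc n (n + h n)) ω = {n}} := by
  ext ω
  constructor
  · rintro ⟨_, h1, h2⟩
    show tr A (Icc n (n + h n)) ω = {n}
    ext m
    rw [mem_tr, mem_Icc, mem_singleton]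
    constructor
    · rintro ⟨h3, h4⟩
      by_contra hne
      have := h2 m h4 (by omega)
      omega
    · rintro rfl
      exact ⟨⟨le_refl _, by omega⟩, h1⟩
  · intro h1
    have h1' : tr A (Icc n (n + h n)) ω = {n} := h1
    have h2 : n ∈ tr A (Icc n (n + h n)) ω := by rw [h1']; exact mem_singleton_self n
    refine ⟨hn, (mem_tr.1 h2).2, fun m hm hnm => ?_⟩
    by_contra hcon
    have h3 : m ∈ tr A (Icc n (n + h n)) ω := mem_tr.2 ⟨mem_Icc.2 ⟨by omega, by omega⟩, hm⟩
    rw [h1', mem_singleton] at h3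
    omega

theorem gapEv_small (h : ℕ → ℕ) {n : ℕ} (hn : ¬ 3 ≤ n) : GapEv A h n = ∅ := by
  ext ω
  simp only [Set.mem_empty_iff_false, iff_false]
  rintro ⟨h1, _⟩
  exact hn h1

theorem measurable_gapEv (hA : IsCramer μ A) (h : ℕ → ℕ) (n : ℕ) : MeasurableSet (GapEv A h n) := by
  by_cases hn : 3 ≤ n
  · rw [gapEv_eq h hn, ← law_set_eq A (show ({n} : Finset ℕ) ⊆ Icc n (n + h n) by
      rw [singleton_subset_iff, mem_Icc]; omega)]
    exact measurableSet_law hA.random _ _
  · rw [gapEv_small h hn]
    exact MeasurableSet.empty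

theorem sum_single (h : ℕ → ℕ) (n : ℕ) :
    ∑ T ∈ (Icc n (n + h n)).powerset with T = {n}, cramerOn (Icc n (n + h n)) T =
      1 / Real.log n * pFree (Ioc n (n + h n)) := by
  have h1 : (Icc n (n + h n)).powerset.filter (fun T => T = {n}) = {{n}} := by
    ext T
    rw [mem_filter, mem_singleton, mem_powerset]
    constructor
    · exact fun h => h.2
    · rintro rfl
      refine ⟨?_, rfl⟩
      rw [singleton_subset_iff, mem_Icc]
      omega
  rw [h1, sum_singleton]
  unfold cramerOn pFree
  have h2 : Icc n (n + h n) \ {n} = Ioc n (n + h n) := by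
    ext m
    rw [Finset.mem_sdiff, mem_Icc, mem_Ioc, mem_singleton]
    omega
  rw [h2, prod_singleton]

theorem real_gapEv (hA : IsCramer μ A) (h : ℕ → ℕ) (n : ℕ) : μ.real (GapEv A h n) = gapP h n := by
  unfold gapP
  split_ifs with hn
  · rw [gapEv_eq h hn]
    rw [real_pred hA (fun m hm => by rw [mem_Icc] at hm; omega) (fun T => T = {n})]
    exact sum_single h n
  · rw [gapEv_small h hn]
    simp

theorem neg_corr (hA : IsCramer μ A) (h : ℕ → ℕ) {n m : ℕ} (hnm : n < m) :
    μ.real (GapEv A h n ∩ GapEv A h m) ≤ μ.real (GapEv A h n) * μ.real (GapEv A h m) := by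
  by_cases hn : 3 ≤ n
  · by_cases hm : m ≤ n + h n
    · have h1 : GapEv A h n ∩ GapEv A h m = ∅ := by
        ext ω
        simp only [Set.mem_empty_iff_false, iff_false]
        rintro ⟨⟨_, _, h2⟩, ⟨_, h3, _⟩⟩
        have := h2 m h3 hnm
        omega
      rw [h1, measureReal_empty]
      positivity
    · push Not at hm
      have hm3 : 3 ≤ m := by omega
      have h1 : GapEv A h n ∩ GapEv A h m =
          {ω | ∀ i ∈ ({n, m} : Finset ℕ), (fun (i : ℕ) (T : Finset ℕ) => T = {i}) i (tr A (Icc i (i + h i)) ω)} := by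
        ext ω
        rw [gapEv_eq h hn, gapEv_eq h hm3]
        constructor
        · rintro ⟨h2, h3⟩ i hi
          rw [mem_insert, mem_singleton] at hi
          rcases hi with rfl | rfl
          · exact h2
          · exact h3
        · intro h2
          exact ⟨h2 n (by simp), h2 m (by simp)⟩
      have h5 := real_all hA {n, m} (fun i => Icc i (i + h i)) (by
        intro i hi k hk
        rw [mem_insert, mem_singleton] at hi
        rw [mem_Icc] at hk
        omega) (by
        intro i hi j hj hij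
        rw [mem_insert, mem_singleton] at hi hj
        rw [Finset.disjoint_left]
        intro k hk1 hk2
        rw [mem_Icc] at hk1 hk2
        rcases hi with rfl | rfl <;> rcases hj with rfl | rfl <;> omega) (fun i T => T = {i})
      rw [h1]
      refine (le_of_eq h5).trans ?_
      rw [prod_pair (by omega), sum_single, sum_single]
      rw [real_gapEv hA, real_gapEv hA]
      unfold gapP
      rw [if_pos hn, if_pos hm3]
  · rw [gapEv_small h hn, Set.empty_inter, measureReal_empty, zero_mul]

theorem gapP_nonneg (h : ℕ → ℕ) (n : ℕ) : 0 ≤ gapP h n := by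
  unfold gapP
  split_ifs with hn
  · refine mul_nonneg ?_ (pFree_nonneg (fun m hm => by rw [mem_Ioc] at hm; omega))
    have := one_lt_log hn
    positivity
  · exact le_refl _

/-- **The exact law of the number of large gaps.** -/
theorem gap_law (hA : IsCramer μ A) (h : ℕ → ℕ) (hS : ¬ Summable (gapP h)) :
    ∀ᵐ ω ∂μ, Tendsto (fun N => cnt (GapEv A h) N ω / ∑ n ∈ range N, gapP h n) atTop (nhds 1) := by
  have h1 : ∀ N, tot μ (GapEv A h) N = ∑ n ∈ range N, gapP h n := by
    intro N
    exact sum_congr rfl (fun n _ => real_gapEv hA h n)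
  have h2 : Tendsto (tot μ (GapEv A h)) atTop atTop := by
    refine ((not_summable_iff_tendsto_nat_atTop_of_nonneg (fun i => gapP_nonneg h i)).1 hS).congr (fun N => (h1 N).symm)
  have h3 := strong_law (μ := μ) (fun n => measurable_gapEv hA h n) (fun n m hnm => by
    rcases Nat.lt_or_gt_of_ne hnm with h | h
    · exact neg_corr hA _ h
    · rw [Set.inter_comm, mul_comm]
      exact neg_corr hA _ h) h2
  filter_upwards [h3] with ω hω
  refine hω.congr (fun N => ?_)
  rw [h1]

theorem gap_fin (hA : IsCramer μ A) (h : ℕ → ℕ) (hS : Summable (gapP h)) :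
    ∀ᵐ ω ∂μ, ∀ᶠ n in atTop, ω ∉ GapEv A h n := by
  have h1 := ae_eventually_notMem (tsum_ne_top_of_real (μ := μ) hS
    (f := fun n => GapEv A h n) (Eventually.of_forall (fun n => le_of_eq (real_gapEv hA h n))))
  exact h1

end Pool.Agent.Q120.NC
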